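import Pool.Agent.K1H20.RS.Stm

/-! # Piece NC: functional equations of a product of coordinates -/

set_option autoImplicit false

namespace Pool.Agent.K1H63.RS

open MvPolynomial Pool.Agent.H628R4.TP Pool.Agent.K1H20.RS

variable {N : ℕ}

open Classical in
/-- coefficients, extended by zero to all integral exponents -/
noncomputable def cf (G : MvPolynomial (Fin N) ℂ) (v : Fin N → ℤ) : ℂ :=
  if ∀ i, 0 ≤ v i then coeff (Finsupp.equivFunOnFinite.symm fun i => (v i).toNat) G else 0

theorem cf_coe (G : MvPolynomial (Fin N) ℂ) (l : Fin N →₀ ℕ) :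
    cf G (fun i => (l i : ℤ)) = coeff l G := by
  unfold cf
  rw [if_pos fun i => by positivity]
  congr 1
  ext i
  simp

theorem cf_neg (G : MvPolynomial (Fin N) ℂ) {v : Fin N → ℤ} {i : Fin N} (h : v i < 0) :
    cf G v = 0 := by
  unfold cf
  rw [if_neg]
  intro hc
  exact absurd (hc i) (not_le.2 h)

theorem cf_cases (v : Fin N → ℤ) : (∃ l : Fin N →₀ ℕ, v = fun i => (l i : ℤ)) ∨ ∃ i, v i < 0 := by
  by_cases h : ∀ i, 0 ≤ v i
  · left
    refine ⟨Finsupp.equivFunOnFinite.symm fun i => (v i).toNat, ?_⟩
    funext i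
    simp [h i]
  · right
    push Not at h
    exact h

theorem cf_add (G G' : MvPolynomial (Fin N) ℂ) (v : Fin N → ℤ) :
    cf (G + G') v = cf G v + cf G' v := by
  unfold cf
  split_ifs
  · rw [coeff_add]
  · rw [add_zero]

theorem cf_smul (r : ℂ) (G : MvPolynomial (Fin N) ℂ) (v : Fin N → ℤ) :
    cf (r • G) v = r * cf G v := by
  unfold cf
  split_ifs
  · rw [coeff_smul, smul_eq_mul]
  · rw [mul_zero]

theorem cf_X (j : Fin N) (G : MvPolynomial (Fin N) ℂ) (v : Fin N → ℤ) :
    cf (X j * G) v = cf G (v - Pi.single j 1) := by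
  classical
  rcases cf_cases v with ⟨l, rfl⟩ | ⟨i, hi⟩
  · rw [cf_coe, coeff_X_mul']
    by_cases h : l j = 0
    · rw [if_neg (by simp [h]), cf_neg (i := j)]
      simp [h]
    · rw [if_pos (by simp [h]), ← cf_coe]
      congr 1
      funext i
      by_cases hij : i = j
      · subst hij
        simp only [Finsupp.coe_tsub, Pi.sub_apply, Finsupp.single_eq_same, Pi.single_eq_same]
        omega
      · simp [hij]
  · rw [cf_neg (i := i) _ hi, cf_neg (i := i)]
    by_cases hij : i = j
    · subst hij
      simp only [Pi.sub_apply, Pi.single_eq_same]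
      omega
    · simp [hij, hi]

theorem cf_D (j : Fin N) (G : MvPolynomial (Fin N) ℂ) (v : Fin N → ℤ) :
    cf (pderiv j G) v = ((v j : ℂ) + 1) * cf G (v + Pi.single j 1) := by
  classical
  rcases cf_cases v with ⟨l, rfl⟩ | ⟨i, hi⟩
  · rw [cf_coe, coeff_pderiv]
    have h : (fun i => (l i : ℤ)) + Pi.single j 1 =
        fun i => ((l + Finsupp.single j 1 : Fin N →₀ ℕ) i : ℤ) := by
      funext i
      by_cases hij : i = j
      · subst hij
        simp
      · simp [hij]
    rw [h, cf_coe]
    push_cast
    ring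
  · rw [cf_neg (i := i) _ hi]
    by_cases hij : i = j
    · subst hij
      by_cases h1 : v i = -1
      · rw [h1]
        push_cast
        ring
      · rw [cf_neg (i := i) _ (by simp only [Pi.add_apply, Pi.single_eq_same]; omega), mul_zero]
    · rw [cf_neg (i := i) _ (by simp [hij, hi]), mul_zero]

/-- number of the negative exponents in `S` -/
def dv (S : Finset (Fin N)) (e : Fin N → ℤ) : ℕ := (S.filter (fun i => e i < 0)).card

/-- `(s + 1) 1_S` -/
def bs (S : Finset (Fin N)) (s : ℕ) : Fin N → ℤ := fun i => if i ∈ S then (s : ℤ) + 1 else 0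

/-- the invariant -/
def Inv (S : Finset (Fin N)) (G : ℕ → MvPolynomial (Fin N) ℂ) : Prop :=
  ∃ c : (Fin N → ℤ) → Polynomial ℂ, {e | c e ≠ 0}.Finite ∧
    (∀ e, (Polynomial.X + 1) ^ dv S e ∣ c e) ∧
    ∀ (s : ℕ) e, cf (G s) (bs S s + e) = (c e).eval (s : ℂ)

variable {S : Finset (Fin N)} {G G' : ℕ → MvPolynomial (Fin N) ℂ}

theorem Inv.add (h : Inv S G) (h' : Inv S G') : Inv S fun s => G s + G' s := by
  obtain ⟨c, hf, hd, hc⟩ := h
  obtain ⟨c', hf', hd', hc'⟩ := h'
  refine ⟨fun e => c e + c' e, (hf.union hf').subset ?_, fun e => dvd_add (hd e) (hd' e),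
    fun s e => ?_⟩
  · intro e he
    by_contra hcon
    rw [Set.mem_union, not_or, Set.mem_ofPred_eq, Set.mem_ofPred_eq, not_not, not_not] at hcon
    apply he
    beta_reduce
    rw [hcon.1, hcon.2, add_zero]
  · rw [cf_add, hc, hc', Polynomial.eval_add]

theorem Inv.smul (h : Inv S G) (r : ℂ) : Inv S fun s => r • G s := by
  obtain ⟨c, hf, hd, hc⟩ := h
  refine ⟨fun e => Polynomial.C r * c e, hf.subset ?_, fun e => (hd e).mul_left _, fun s e => ?_⟩
  · intro e he hcon
    apply he
    beta_reduce
    rw [hcon, mul_zero]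
  · rw [cf_smul, hc, Polynomial.eval_mul, Polynomial.eval_C]

theorem Inv.mulX (h : Inv S G) (j : Fin N) : Inv S fun s => X j * G s := by
  obtain ⟨c, hf, hd, hc⟩ := h
  refine ⟨fun e => c (e - Pi.single j 1), ?_, fun e => ?_, fun s e => ?_⟩
  · exact hf.preimage (f := fun e : Fin N → ℤ => e - Pi.single j 1)
      (Function.Injective.injOn fun a b hab => sub_left_injective hab)
  · refine (pow_dvd_pow _ ?_).trans (hd _)
    refine Finset.card_le_card fun i hi => ?_
    rw [Finset.mem_filter] at hi ⊢
    refine ⟨hi.1, ?_⟩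
    by_cases hij : i = j
    · subst hij
      simp only [Pi.sub_apply, Pi.single_eq_same]
      omega
    · simp [hij, hi.2]
  · rw [cf_X, add_sub_assoc, hc]

theorem Inv.der (h : Inv S G) (j : Fin N) : Inv S fun s => pderiv j (G s) := by
  classical
  obtain ⟨c, hf, hd, hc⟩ := h
  refine ⟨fun e => ((if j ∈ S then Polynomial.X + 1 else 0) + Polynomial.C ((e j : ℂ) + 1)) *
    c (e + Pi.single j 1), ?_, fun e => ?_, fun s e => ?_⟩
  · refine (hf.preimage (f := fun e : Fin N → ℤ => e + Pi.single j 1)
      (Function.Injective.injOn fun a b hab => add_left_injective _ hab)).subset ?_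
    intro e he hcon
    apply he
    beta_reduce at hcon ⊢
    rw [hcon, mul_zero]
  · beta_reduce
    by_cases hj : j ∈ S ∧ e j = -1
    · rw [if_pos hj.1, hj.2]
      have h1 : dv S e ≤ dv S (e + Pi.single j 1) + 1 := by
        unfold dv
        have h2 : S.filter (fun i => e i < 0) ⊆
            insert j (S.filter (fun i => (e + Pi.single j 1 : Fin N → ℤ) i < 0)) := by
          intro i hi
          rw [Finset.mem_filter] at hi
          rw [Finset.mem_insert, Finset.mem_filter]
          by_cases hij : i = j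
          · exact Or.inl hij
          · right
            refine ⟨hi.1, ?_⟩
            simp [hij, hi.2]
        exact (Finset.card_le_card h2).trans (Finset.card_insert_le _ _)
      refine (pow_dvd_pow _ h1).trans ?_
      rw [pow_succ']
      refine mul_dvd_mul ?_ (hd _)
      push_cast
      simp
    · refine ((pow_dvd_pow _ ?_).trans (hd _)).mul_left _
      refine Finset.card_le_card fun i hi => ?_
      rw [Finset.mem_filter] at hi ⊢
      refine ⟨hi.1, ?_⟩
      by_cases hij : i = j
      · subst hij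
        have : e i ≠ -1 := fun hc => hj ⟨hi.1, hc⟩
        simp only [Pi.add_apply, Pi.single_eq_same]
        omega
      · simp [hij, hi.2]
  · rw [cf_D, add_assoc, hc, Polynomial.eval_mul, Polynomial.eval_add, Polynomial.eval_C]
    congr 1
    simp only [Pi.add_apply, bs]
    by_cases hj : j ∈ S
    · rw [if_pos hj, if_pos hj]
      push_cast
      simp
      ring
    · rw [if_neg hj, if_neg hj]
      push_cast
      simp

theorem Inv.weyl (Q : Module.End ℂ (MvPolynomial (Fin N) ℂ)) (hQ : Q ∈ weylS (Fin N)) :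
    ∀ G, Inv S G → Inv S fun s => Q (G s) := by
  unfold weylS at hQ
  induction hQ using Algebra.adjoin_induction with
  | mem x hx =>
    rcases hx with ⟨j, rfl⟩ | ⟨j, rfl⟩
    · intro G hG
      exact hG.mulX j
    · intro G hG
      exact hG.der j
  | algebraMap r =>
    intro G hG
    have := hG.smul r
    simpa using this
  | add x y _ _ hx hy =>
    intro G hG
    exact (hx G hG).add (hy G hG)
  | mul x y _ _ hx hy =>
    intro G hG
    exact hx _ (hy G hG)

/-- the exponent `1_S` -/
noncomputable def dS (S : Finset (Fin N)) : Fin N →₀ ℕ := ∑ i ∈ S, Finsupp.single i 1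

theorem dS_apply (S : Finset (Fin N)) (i : Fin N) : dS S i = if i ∈ S then 1 else 0 := by
  classical
  unfold dS
  rw [Finsupp.finsetSum_apply]
  simp [Finsupp.single_apply]

theorem F_eq (S : Finset (Fin N)) (s : ℕ) :
    (∏ i ∈ S, (X i : MvPolynomial (Fin N) ℂ)) ^ s = monomial (s • dS S) 1 := by
  have h1 : (monomial (dS S) (1 : ℂ)) = ∏ i ∈ S, (X i : MvPolynomial (Fin N) ℂ) := by
    unfold dS
    rw [monomial_sum_one]
    rfl
  rw [← h1, monomial_pow, one_pow]

theorem Inv.base (S : Finset (Fin N)) :
    Inv S fun s => (∏ i ∈ S, (X i : MvPolynomial (Fin N) ℂ)) ^ (s + 1) := by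
  classical
  refine ⟨fun e => if e = 0 then 1 else 0, (Set.finite_singleton 0).subset ?_, fun e => ?_,
    fun s e => ?_⟩
  · intro e he
    by_contra hc
    exact he (if_neg hc)
  · beta_reduce
    by_cases he : e = 0
    · subst he
      have : dv S (0 : Fin N → ℤ) = 0 := by
        unfold dv
        simp
      rw [this, pow_zero]
      exact one_dvd _
    · rw [if_neg he]
      exact dvd_zero _
  · have hb : bs S s = fun i => (((s + 1) • dS S) i : ℤ) := by
      funext i
      unfold bs
      rw [Finsupp.smul_apply, dS_apply]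
      split_ifs <;> simp
    beta_reduce
    rw [F_eq]
    by_cases he : e = 0
    · rw [he, add_zero, if_pos rfl, hb, cf_coe, coeff_monomial, if_pos rfl, Polynomial.eval_one]
    · rw [if_neg he, Polynomial.eval_zero]
      rcases cf_cases (bs S s + e) with ⟨l, hl⟩ | ⟨i, hi⟩
      · rw [hl, cf_coe, coeff_monomial, if_neg]
        rintro rfl
        apply he
        rw [← hb] at hl
        exact left_eq_add.1 hl.symm
      · exact cf_neg _ hi

theorem t_NC : S_NC := by
  classical
  rintro N S b ⟨L, m, a, Q, hF⟩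
  have hI : ∀ i : Fin L, Inv S fun s => (Q i : Module.End ℂ (MvPolynomial (Fin N) ℂ))
      ((∏ i ∈ S, (X i : MvPolynomial (Fin N) ℂ)) ^ (s + 1)) := fun i =>
    Inv.weyl _ (Q i).2 _ (Inv.base S)
  choose c hf hd hc using hI
  -- the exponents which occur
  obtain ⟨ee, hee⟩ : ∃ ee : (Fin N →₀ ℕ) → Fin N → ℤ,
      ee = fun γ i => -(if i ∈ S then 1 else 0) - (γ i : ℤ) := ⟨_, rfl⟩
  have hinj : Function.Injective ee := by
    intro γ γ' h
    ext i
    have := congrFun h i
    rw [hee] at this
    simp only at this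
    omega
  have hfin : ∀ i, {γ | c i (ee γ) ≠ 0}.Finite := fun i => (hf i).preimage hinj.injOn
  obtain ⟨q, hq⟩ : ∃ q : Polynomial ℂ, q = ∑ i, Polynomial.X ^ m i *
      ∑ γ ∈ (hfin i).toFinset, Polynomial.C (MvPowerSeries.coeff γ (a i)) * c i (ee γ) := ⟨_, rfl⟩
  have hdvd : (Polynomial.X + 1) ^ S.card ∣ q := by
    rw [hq]
    refine Finset.dvd_sum fun i _ => (Finset.dvd_sum fun γ _ => ?_).mul_left _
    refine Dvd.dvd.mul_left ?_ _
    have h1 : dv S (ee γ) = S.card := by
      unfold dv
      congr 1
      rw [Finset.filter_true_of_mem]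
      intro i hi
      rw [hee]
      simp only [if_pos hi]
      omega
    rw [← h1]
    exact hd i _
  have heq : b = q := by
    refine Polynomial.eq_of_infinite_eval_eq b q (Set.infinite_of_injective_forall_mem
      (f := fun n : ℕ => (n : ℂ)) Nat.cast_injective fun s => ?_)
    have h1 := congrArg (MvPowerSeries.coeff (s • dS S)) (hF s)
    rw [MvPowerSeries.coeff_C_mul, MvPolynomial.coeff_coe, F_eq, coeff_monomial, if_pos rfl,
      mul_one, map_sum] at h1
    rw [Set.mem_ofPred_eq, h1, hq, Polynomial.eval_finsetSum]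
    refine Finset.sum_congr rfl fun i _ => ?_
    rw [MvPowerSeries.coeff_C_mul, Polynomial.eval_mul, Polynomial.eval_pow, Polynomial.eval_X,
      Polynomial.eval_finsetSum, MvPowerSeries.coeff_mul]
    congr 1
    -- the terms
    obtain ⟨φ, hφ⟩ : ∃ φ : (Fin N →₀ ℕ) → ℂ, φ = fun γ =>
        MvPowerSeries.coeff γ (a i) * (c i (ee γ)).eval (s : ℂ) := ⟨_, rfl⟩
    have h2 : ∀ γ ∈ (hfin i).toFinset, Polynomial.eval (s : ℂ)
        (Polynomial.C (MvPowerSeries.coeff γ (a i)) * c i (ee γ)) = φ γ := by
      intro γ _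
      rw [hφ, Polynomial.eval_mul, Polynomial.eval_C]
    rw [Finset.sum_congr rfl h2]
    have h3 : ∀ p ∈ Finset.HasAntidiagonal.antidiagonal (s • dS S),
        MvPowerSeries.coeff p.1 (a i) * MvPowerSeries.coeff p.2
          ((((Q i : Module.End ℂ (MvPolynomial (Fin N) ℂ))
            ((∏ i ∈ S, (X i : MvPolynomial (Fin N) ℂ)) ^ (s + 1)) : MvPolynomial (Fin N) ℂ) :
              MvPowerSeries (Fin N) ℂ)) = φ p.1 := by
      intro p hp
      rw [Finset.HasAntidiagonal.mem_antidiagonal] at hp
      rw [hφ]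
      beta_reduce
      rw [← hc, MvPolynomial.coeff_coe, ← cf_coe]
      congr 2
      funext j
      have h4 := DFunLike.congr_fun hp j
      rw [Finsupp.add_apply, Finsupp.smul_apply, dS_apply] at h4
      rw [hee]
      simp only [Pi.add_apply, bs]
      split_ifs at h4 ⊢ with hj
      · simp only [smul_eq_mul, mul_one] at h4
        omega
      · simp only [smul_eq_mul, mul_zero] at h4
        omega
    rw [Finset.sum_congr rfl h3]
    have h4 : ∑ p ∈ Finset.HasAntidiagonal.antidiagonal (s • dS S), φ p.1 =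
        ∑ γ ∈ (Finset.HasAntidiagonal.antidiagonal (s • dS S)).image Prod.fst, φ γ := by
      rw [Finset.sum_image]
      intro p hp p' hp' hpp
      rw [Finset.mem_coe, Finset.HasAntidiagonal.mem_antidiagonal] at hp hp'
      refine Prod.ext hpp ?_
      rw [← hp', hpp] at hp
      exact add_left_cancel hp
    rw [h4]
    have h5 : ∀ γ, γ ∉ (Finset.HasAntidiagonal.antidiagonal (s • dS S)).image Prod.fst →
        φ γ = 0 := by
      intro γ hγ
      have h6 : ¬ γ ≤ s • dS S := by
        intro hle
        apply hγ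
        rw [Finset.mem_image]
        refine ⟨(γ, s • dS S - γ), ?_, rfl⟩
        rw [Finset.HasAntidiagonal.mem_antidiagonal]
        exact add_tsub_cancel_of_le hle
      rw [Finsupp.le_def] at h6
      push Not at h6
      obtain ⟨j, hj⟩ := h6
      rw [hφ]
      beta_reduce
      rw [← hc, cf_neg (i := j), mul_zero]
      rw [Finsupp.smul_apply, dS_apply] at hj
      rw [hee]
      simp only [Pi.add_apply, bs]
      split_ifs at hj ⊢ with hj'
      · simp only [smul_eq_mul, mul_one] at hj
        omega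
      · simp only [smul_eq_mul, mul_zero] at hj
        omega
    have h6 : ∀ γ, γ ∉ (hfin i).toFinset → φ γ = 0 := by
      intro γ hγ
      rw [Set.Finite.mem_toFinset, Set.mem_ofPred_eq, not_not] at hγ
      rw [hφ]
      beta_reduce
      rw [hγ, Polynomial.eval_zero, mul_zero]
    rw [Finset.sum_subset (Finset.subset_union_left (s₂ := (hfin i).toFinset))
      fun γ _ hγ => h5 γ hγ]
    exact (Finset.sum_subset Finset.subset_union_right fun γ _ hγ => h6 γ hγ).symm
  rw [heq]
  exact hdvd

end Pool.Agent.K1H63.RS
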